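import Pool.Agent.TH570.Mu.Real

/-!
# `μ = 0` for totally real fields: reduction to highly ramified fields of degree prime to `p`

Let `p` be a prime number. A class `C` of totally real number fields is closed
(`IsClosedRealClass p C`) if it contains with a field all its subfields and all its totally real
Galois extensions of `p`-power degree. If `p` is odd, the totally real fields `E` with `μ_p(E) = 0`
form such a class: `X_Σ` is finitely generated over `ℤ_p` if and only if the Galois group of the
maximal pro-`p` extension of `E^cyc` that is unramified outside `Σ` is topologically finitely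
generated, and this property passes to open subgroups; moreover `Σ` may be enlarged.

Let `E₀` be a totally real number field with `[E₀:ℚ]` prime to `p`, and `N`, `m` natural numbers. A
closed class contains all totally real number fields if it contains the totally real number fields
`E ⊇ E₀` with `[E:ℚ] ≥ N` prime to `p`, in which all prime numbers `q ≤ [E:ℚ]` have only
ramification indices `≥ [E:ℚ]^(m/(m+1))`, and so have at most `[E:ℚ]^(1/(m+1))` primes above them.

Proof. Every totally real number field is contained in a totally real number field `K ⊇ E₀` which
is Galois over `ℚ`. Let `E'` be the fixed field of a Sylow subgroup of `Gal(K/ℚ)` for the prime `p`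
such that `E' ⊇ E₀`, and `n = [E':ℚ]`. Let `ℓ` be a large prime number, `a` the product of the
prime numbers up to `n ℓ`, and `y` a root of the Eisenstein polynomial `∏ i < ℓ, (X - a i) + a`. All
roots of this polynomial are real, so that `E = E'(y)` is totally real. All prime numbers
`q ≤ n ℓ = [E:ℚ]` have ramification indices at least `ℓ` in `E`. A closed class which contains `E`
contains `E'`, and so contains `K`.
-/

open NumberField Pool.Agent.TH570.Mu

namespace Pool.Agent.Results.MP_4e64b4_nt.HighlyRamifiedFields

/-- **Reduction to highly ramified totally real fields of degree prime to `p`** which contain a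
given totally real field `E₀` of degree prime to `p`. -/
theorem result (p : ℕ) (hp : p.Prime)
    (E₀ : IntermediateField ℚ (AlgebraicClosure ℚ)) (hE₀ : NumberField E₀)
    (hr₀ : IsTotallyReal E₀) (hpE₀ : ¬ p ∣ Module.finrank ℚ E₀) (N m : ℕ)
    (C : IntermediateField ℚ (AlgebraicClosure ℚ) → Prop) (hC : IsClosedRealClass p C) :
    (∀ E : IntermediateField ℚ (AlgebraicClosure ℚ), NumberField E → IsTotallyReal E → C E) ↔
      ∀ E : IntermediateField ℚ (AlgebraicClosure ℚ), NumberField E → IsTotallyReal E → E₀ ≤ E →
        ¬ p ∣ Module.finrank ℚ E → N ≤ Module.finrank ℚ E → HighlyRamified m E → C E :=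
  reduction_real p hp N m E₀ hE₀ hr₀ hpE₀ C hC

end Pool.Agent.Results.MP_4e64b4_nt.HighlyRamifiedFields
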