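import Pool.Agent.TH957.Mu.Lift

/-!
# The `μ`-invariant of totally real fields: norm relations of order prime to `p`
-/

namespace Pool.Agent.Results.MP_4e64b4_nt.PrimeToPRelations

open Pool.Agent.TH957.Sch Pool.Agent.TH957.Mu

/-- for a non-cyclic group `H` of automorphisms of `L` of order `q r`, with primes `q, r ≠ p`, the vanishing for the
fixed fields of the nontrivial subgroups of `H` implies it for `L` -/
def Reduction (p : ℕ) [Fact p.Prime] : Prop :=
  ∀ (L : IntermediateField ℚ Qb) [FiniteDimensional ℚ L] (H : Subgroup (AutF L)) (q r : ℕ), q.Prime → r.Prime →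
    q ≠ p → r ≠ p → Nat.card H = q * r → ¬ IsCyclic H →
    (∀ C : Subgroup (AutF L), C ≤ H → C ≠ ⊥ → MuZero p (fixF L C)) → MuZero p L

/-- the vanishing for all totally real number fields -/
def ForTotReal (p : ℕ) [Fact p.Prime] : Prop :=
  ∀ (L : IntermediateField ℚ Qb) [FiniteDimensional ℚ L], TotReal L → MuZero p L

/-- the vanishing for the remaining totally real number fields -/
def ForRem (p : ℕ) [Fact p.Prime] : Prop :=
  ∀ (L : IntermediateField ℚ Qb) [FiniteDimensional ℚ L], TotReal L → Rem p L → MuZero p L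

/-- **Norm relations prime to `p` for the `μ`-invariant of totally real fields** (`p` odd) -/
theorem result (p : ℕ) [Fact p.Prime] (_ : p ≠ 2) : Reduction p ∧ (ForTotReal p ↔ ForRem p) :=
  ⟨fun L _ H q r hq hr hqp hrp hc hH hS =>
    mu_reduce p L H q r hq hr hqp hrp hc (lifts_of_card p L H q r hq hr hqp hrp hc) hH hS, all_iff_mu p⟩

end Pool.Agent.Results.MP_4e64b4_nt.PrimeToPRelations
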