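import Pool.Agent.TH965.Mu.Main

/-!
# `μ = 0` for totally real fields: fields of degree prime to `p` over a given field suffice

Let `p` be an odd prime number and let `F₀` be a totally real number field of degree prime to `p`.
We show that the conjecture `μ_p(E) = 0` for all totally real fields `E` follows from its case for
the totally real fields `K` with the following properties:

* `K` contains `F₀`;
* `[K : ℚ]` is prime to `p`;
* the Galois closure of `K` is an extension of `K` of degree a power of `p`.

More precisely every totally real `E` has such a `K` inside the Galois closure `L` of `E F₀`, with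
`μ_p(K) = 0 → μ_p(E) = 0`. Since `F₀` is arbitrary, one can prescribe the behaviour of finitely many
primes (for instance all primes up to a given bound, `p` included, have residue degrees divisible by
a given number prime to `p`).

Proof. `K` is the fixed field in `L` of a Sylow `p`-subgroup of `Gal(L / F₀)`; this is also a Sylow
`p`-subgroup of `Gal(L / ℚ)`. Iwasawa's theorem on `p`-extensions is proved in the form: let `N` be a
normal subgroup of finite `p`-power index of `H`, which contains a subgroup `I` that is normal in the
whole group; if `H / I` has only finitely many continuous homomorphisms to `ℤ/p`, then so has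
`N / I`. For the passage from `L` to `E` restriction has finite kernel.
-/

set_option autoImplicit false

open NumberField IntermediateField Pool.Agent.TH965.Mu

namespace Pool.Agent.Results.MP_4e64b4_nt.SylowFixedFields

/-- `E` is a totally real number field. -/
def TotReal (E : IntermediateField ℚ Ω) : Prop := FiniteDimensional ℚ E ∧ IsTotallyReal E

/-- The degree over `ℚ`. -/
noncomputable def deg (E : IntermediateField ℚ Ω) : ℕ := Module.finrank ℚ E

/-- The Galois closure over `ℚ`. -/
noncomputable def closure (E : IntermediateField ℚ Ω) : IntermediateField ℚ Ω :=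
  normalClosure ℚ E Ω

/-- `K` is a totally real number field that contains `F₀`, its degree is prime to `p`, and its
Galois closure is an extension of `K` of degree a power of `p`. -/
def Reduced (p : ℕ) (F₀ K : IntermediateField ℚ Ω) : Prop :=
  TotReal K ∧ F₀ ≤ K ∧ ¬ p ∣ deg K ∧ ∃ k : ℕ, deg (closure K) = p ^ k * deg K

/-- For a totally real number field `F₀` of degree prime to `p`: every totally real number field `E`
has a totally real `K`, inside the Galois closure of `E F₀`, that contains `F₀`, has degree prime
to `p` and has a Galois closure of `p`-power degree over `K`, such that `μ_p(K) = 0` implies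
`μ_p(E) = 0`. In particular `μ_p = 0` for all totally real fields if and only if `μ_p = 0` for the
totally real fields `K` with these three properties. -/
theorem result (p : ℕ) [Fact p.Prime] (F₀ : IntermediateField ℚ Ω) (hF : TotReal F₀)
    (h0 : ¬ p ∣ deg F₀) :
    (∀ E, TotReal E →
      ∃ K, Reduced p F₀ K ∧ K ≤ closure (E ⊔ F₀) ∧ (MuZero p K → MuZero p E)) ∧
    ((∀ E, TotReal E → MuZero p E) ↔ ∀ K, Reduced p F₀ K → MuZero p K) := by
  have key : ∀ E, TotReal E →
      ∃ K, Reduced p F₀ K ∧ K ≤ closure (E ⊔ F₀) ∧ (MuZero p K → MuZero p E) := by
    rintro E ⟨hE, hEr⟩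
    obtain ⟨hF1, hF2⟩ := hF
    obtain ⟨K, hK1, hK2, hK3, hK4, hK5, hK6, hK7⟩ := main p F₀ E h0
    exact ⟨K, ⟨⟨hK1, hK2⟩, hK3, hK5, hK6⟩, hK4, hK7⟩
  refine ⟨key, fun h K hK => h K hK.1, fun h E hE => ?_⟩
  obtain ⟨K, hK, _, hK7⟩ := key E hE
  exact hK7 (h K hK)

end Pool.Agent.Results.MP_4e64b4_nt.SylowFixedFields
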